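import Pool.Agent.Hhelper37.UCMain

/-!
Q1 of MP_ae8f8e_co, answered affirmatively for every `ℓ`.

The definitions (T-ons, the limit objects `φ_N`, `Hom⁺(T)`, rank, couplings, the independent
coupling, unique coupleability and `UCouple[ℓ]`) are in `Pool/Agent/Hhelper37/UCDefs.lean`.
-/

set_option autoImplicit false

namespace Pool.Agent.Results.MP_ae8f8e_co.RankDuality

open Pool.Agent.UC

/-- For every `ℓ`, every theory `T` (a universal theory in a finite relational language) and every
`φ ∈ Hom⁺(T)`: if `φ` and `ψ` are uniquely coupleable for every theory `T'` and every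
`ψ ∈ Hom⁺(T')` with `ψ ∈ UCouple[ℓ]`, then `rk(φ) ≤ ℓ`. -/
theorem result :
    ∀ (ℓ : ℕ) (L : FirstOrder.Language.{0, 0}) [L.IsRelational] [Finite (Σ k, L.Relations k)]
      (T : L.Theory) [T.IsUniversal] (φ : Limit L), φ ∈ HomPlus T →
      (∀ (L' : FirstOrder.Language.{0, 0}) [L'.IsRelational] [Finite (Σ k, L'.Relations k)]
        (T' : L'.Theory) [T'.IsUniversal] (ψ : Limit L'), ψ ∈ HomPlus T' → UCouple ℓ T' ψ →
          UniquelyCoupleable T T' φ ψ) →
      RkLE T φ ℓ := by
  intro ℓ L _ _ T _ φ hφ h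
  exact main ℓ L T φ hφ h

end Pool.Agent.Results.MP_ae8f8e_co.RankDuality
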